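import Mathlib

set_option autoImplicit false

namespace Pool.Agent.U350.ChromRatio

open Finset Classical

noncomputable section

/-- The finset of proper colourings of `G` with colours `Fin k`. -/
def Col {V : Type} [Fintype V] (G : SimpleGraph V) (k : ℕ) : Finset (V → Fin k) :=
  univ.filter (fun c => ∀ u v, G.Adj u v → c u ≠ c v)

lemma mem_Col {V : Type} [Fintype V] (G : SimpleGraph V) (k : ℕ) (c : V → Fin k) :
    c ∈ Col G k ↔ ∀ u v, G.Adj u v → c u ≠ c v := by
  simp [Col]

/-- Number of colourings. -/
def P {V : Type} [Fintype V] (G : SimpleGraph V) (k : ℕ) : ℕ := (Col G k).card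

lemma natCard_coloring {V : Type} [Fintype V] (G : SimpleGraph V) (k : ℕ) :
    Nat.card (G.Coloring (Fin k)) = P G k := by
  have e : G.Coloring (Fin k) ≃ {c : V → Fin k // c ∈ Col G k} :=
    { toFun := fun f => ⟨fun v => f v, by
        rw [mem_Col]; intro u v h; exact f.valid h⟩
      invFun := fun c => SimpleGraph.Coloring.mk c.1 (fun {u v} h => (mem_Col G k c.1).1 c.2 u v h)
      left_inv := fun f => by ext v; rfl
      right_inv := fun c => by ext v; rfl }
  rw [Nat.card_congr e, Nat.card_eq_fintype_card, Fintype.card_coe]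
  rfl

/-- the vertex-deleted graph -/
def del {V : Type} (G : SimpleGraph V) (x : V) : SimpleGraph {v : V // v ≠ x} :=
  G.comap Subtype.val

/-- neighbours of `x` in the deleted graph -/
def nb {V : Type} [Fintype V] (G : SimpleGraph V) (x : V) : Finset {v : V // v ≠ x} :=
  univ.filter (fun v => G.Adj x v.1)

lemma mem_nb {V : Type} [Fintype V] (G : SimpleGraph V) (x : V) (v : {v : V // v ≠ x}) :
    v ∈ nb G x ↔ G.Adj x v.1 := by simp [nb]

lemma card_compl_image {k : ℕ} {W : Type} (c : W → Fin k) (N : Finset W) :
    ((univ.filter (fun i : Fin k => i ∉ N.image c)).card : ℝ) = (k : ℝ) - ((N.image c).card : ℝ) := by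
  have h : (univ.filter (fun i : Fin k => i ∉ N.image c)) = (N.image c)ᶜ := by
    ext i; simp
  rw [h, Finset.card_compl, Nat.cast_sub (Finset.card_le_univ _)]
  simp

/-- decomposition of colourings by deleting a vertex, with a weight depending on the restriction -/
lemma card_split {V : Type} [Fintype V] (G : SimpleGraph V) (x : V) (k : ℕ)
    (Q : Fin k → ({v : V // v ≠ x} → Fin k) → Prop) :
    (((Col G k).filter (fun c => Q (c x) (fun v => c v.1))).card) =
      ∑ c ∈ Col (del G x) k,
        ((univ.filter (fun i : Fin k => i ∉ (nb G x).image c ∧ Q i c)).card) := by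
  have e := Equiv.funSplitAt x (Fin k)
  rw [← Finset.card_sigma]
  refine Finset.card_bij' (fun c _ => (⟨fun v => c v.1, c x⟩ : Σ _ : ({v : V // v ≠ x} → Fin k), Fin k))
    (fun p _ => fun v => if h : v = x then p.2 else p.1 ⟨v, h⟩) ?_ ?_ ?_ ?_
  · intro c hc
    simp only [mem_filter, mem_Col] at hc
    simp only [mem_sigma, mem_Col, mem_filter, mem_univ, true_and, mem_image, not_exists, not_and]
    refine ⟨?_, ?_, hc.2⟩
    · intro u v h; exact hc.1 _ _ h
    · intro v hv h
      exact hc.1 _ _ ((mem_nb G x v).1 hv) h.symm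
  · intro p hp
    simp only [mem_sigma, mem_Col, mem_filter, mem_univ, true_and, mem_image, not_exists, not_and] at hp
    simp only [mem_filter, mem_Col]
    refine ⟨?_, ?_⟩
    · intro u v h
      by_cases hu : u = x
      · subst hu
        have hv : v ≠ u := h.ne.symm
        simp only [dite_true, hv, dite_false]
        intro h2
        exact hp.2.1 ⟨v, hv⟩ ((mem_nb _ _ _).2 h) h2.symm
      · by_cases hv : v = x
        · subst hv
          simp only [hu, dite_true, dite_false]
          intro h2
          exact hp.2.1 ⟨u, hu⟩ ((mem_nb _ _ _).2 h.symm) h2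
        · simp only [hu, hv, dite_false]
          exact hp.1 ⟨u, hu⟩ ⟨v, hv⟩ h
    · have h1 : (fun v : {v : V // v ≠ x} => if h : (v : V) = x then p.2 else p.1 ⟨v, h⟩) = p.1 := by
        ext v; simp [v.2]
      have h2 : (if h : x = x then p.2 else p.1 ⟨x, h⟩) = p.2 := by simp
      simp only [h1, h2]
      exact hp.2.2
  · intro c hc
    ext v
    by_cases h : v = x
    · subst h; simp
    · simp [h]
  · intro p hp
    rcases p with ⟨p1, p2⟩
    simp only [dite_true]
    congr 1
    ext v
    simp [v.2]

lemma P_split {V : Type} [Fintype V] (G : SimpleGraph V) (x : V) (k : ℕ) :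
    (P G k : ℝ) = ∑ c ∈ Col (del G x) k, ((k : ℝ) - (((nb G x).image c).card : ℝ)) := by
  have h := card_split G x k (fun _ _ => True)
  simp only [Finset.filter_true, and_true] at h
  unfold P
  rw [h]
  push_cast
  refine Finset.sum_congr rfl (fun c _ => ?_)
  exact card_compl_image c (nb G x)

lemma pair_le {V : Type} [Fintype V] (G : SimpleGraph V) (u v : V) (huv : v ≠ u) (k : ℕ) :
    ((Col G k).filter (fun c => c u = c v)).card ≤ P (del G u) k := by
  have h := card_split G u k (fun i c => i = c ⟨v, huv⟩)
  simp only at h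
  rw [h]
  unfold P
  rw [Finset.card_eq_sum_ones]
  refine Finset.sum_le_sum (fun c _ => ?_)
  refine (Finset.card_le_card (t := {c ⟨v, huv⟩}) ?_).trans (by simp)
  intro i hi
  simp only [mem_filter, mem_univ, true_and] at hi
  simp [hi.2]

lemma P_ge {V : Type} [Fintype V] (G : SimpleGraph V) (u : V) (k : ℕ) :
    ((k : ℝ) - ((nb G u).card : ℝ)) * (P (del G u) k : ℝ) ≤ (P G k : ℝ) := by
  rw [P_split G u k]
  unfold P
  rw [mul_comm, ← nsmul_eq_mul, ← Finset.sum_const]
  refine Finset.sum_le_sum (fun c _ => ?_)
  have : ((nb G u).image c).card ≤ (nb G u).card := Finset.card_image_le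
  have h2 : (((nb G u).image c).card : ℝ) ≤ ((nb G u).card : ℝ) := by exact_mod_cast this
  linarith

/-- number of repeated colours -/
def rep {W : Type} {k : ℕ} (c : W → Fin k) (N : Finset W) : ℝ := (N.card : ℝ) - ((N.image c).card : ℝ)

lemma rep_insert {W : Type} {k : ℕ} (c : W → Fin k) (N : Finset W) (u : W) (hu : u ∉ N) :
    rep c (insert u N) = rep c N + (if c u ∈ N.image c then 1 else 0) := by
  unfold rep
  rw [Finset.card_insert_of_notMem hu, Finset.image_insert]
  split_ifs with h
  · rw [Finset.insert_eq_of_mem h]; push_cast; ring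
  · rw [Finset.card_insert_of_notMem h]; push_cast; ring

lemma rep_le_pairs {W : Type} {k : ℕ} (c : W → Fin k) (N : Finset W) :
    2 * rep c N ≤ ∑ u ∈ N, (((N.erase u).filter (fun v => c v = c u)).card : ℝ) := by
  induction N using Finset.induction_on with
  | empty => simp [rep]
  | insert u M hu ih =>
    rw [rep_insert c M u hu, Finset.sum_insert hu]
    have h1 : (insert u M).erase u = M := Finset.erase_insert hu
    rw [h1]
    have h2 : ∀ w ∈ M, (((((insert u M).erase w).filter (fun v => c v = c w)).card : ℕ) : ℝ)
        = (((M.erase w).filter (fun v => c v = c w)).card : ℝ) + (if c u = c w then 1 else 0) := by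
      intro w hw
      have hne : w ≠ u := fun h => hu (h ▸ hw)
      rw [Finset.erase_insert_of_ne hne.symm, Finset.filter_insert]
      split_ifs with h
      · rw [Finset.card_insert_of_notMem]
        · push_cast; ring
        · simp [hu]
      · simp
    rw [Finset.sum_congr rfl h2, Finset.sum_add_distrib]
    have h3 : (∑ w ∈ M, (if c u = c w then (1:ℝ) else 0)) = ((M.filter (fun v => c v = c u)).card : ℝ) := by
      rw [Finset.sum_ite]
      simp only [Finset.sum_const_zero, add_zero, Finset.sum_const, nsmul_eq_mul, mul_one]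
      congr 2
      ext v; simp only [mem_filter]
      constructor <;> (rintro ⟨a, b⟩; exact ⟨a, b.symm⟩)
    rw [h3]
    have h4 : (if c u ∈ M.image c then (1:ℝ) else 0) ≤ ((M.filter (fun v => c v = c u)).card : ℝ) := by
      split_ifs with h
      · rw [mem_image] at h
        obtain ⟨v, hv, hc⟩ := h
        have : 0 < (M.filter (fun v => c v = c u)).card :=
          Finset.card_pos.2 ⟨v, by simp [hv, hc]⟩
        exact_mod_cast this
      · positivity
    linarith

lemma sum_rep_le {W : Type} [Fintype W] (H : SimpleGraph W) (N : Finset W) (k : ℕ)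
    (hk : Fintype.card W + 1 ≤ k) :
    2 * ((N.card : ℝ) + 1) * (∑ c ∈ Col H k, rep c N) ≤ (N.card : ℝ) * ((N.card : ℝ) - 1) * (P H k : ℝ) := by
  have h1 : 2 * (∑ c ∈ Col H k, rep c N) ≤
      ∑ u ∈ N, ∑ v ∈ N.erase u, ((((Col H k).filter (fun c => c u = c v)).card : ℕ) : ℝ) := by
    rw [Finset.mul_sum]
    have h2 : ∑ c ∈ Col H k, 2 * rep c N ≤ ∑ c ∈ Col H k, ∑ u ∈ N, (((N.erase u).filter (fun v => c v = c u)).card : ℝ) :=
      Finset.sum_le_sum (fun c _ => rep_le_pairs c N)
    refine h2.trans (le_of_eq ?_)
    rw [Finset.sum_comm]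
    refine Finset.sum_congr rfl (fun u _ => ?_)
    have h3 : ∀ c ∈ Col H k, (((N.erase u).filter (fun v => c v = c u)).card : ℝ)
        = ∑ v ∈ N.erase u, (if c u = c v then (1:ℝ) else 0) := by
      intro c _
      rw [Finset.sum_ite]
      simp only [Finset.sum_const_zero, add_zero, Finset.sum_const, nsmul_eq_mul, mul_one]
      congr 2
      ext v; simp only [mem_filter]
      constructor <;> (rintro ⟨a, b⟩; exact ⟨a, b.symm⟩)
    rw [Finset.sum_congr rfl h3, Finset.sum_comm]
    refine Finset.sum_congr rfl (fun v _ => ?_)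
    rw [Finset.sum_ite]
    simp
  have h5 : ∀ u ∈ N, ((N.card : ℝ) + 1) * ∑ v ∈ N.erase u, ((((Col H k).filter (fun c => c u = c v)).card : ℕ) : ℝ)
      ≤ ((N.card : ℝ) - 1) * (P H k : ℝ) := by
    intro u hu
    set F := N.filter (fun v => H.Adj u v) with hF
    have hFN : F ⊆ N.erase u := by
      intro v hv
      simp only [hF, mem_filter] at hv
      simp only [mem_erase]
      exact ⟨hv.2.ne.symm, hv.1⟩
    have hFcard : F.card + 1 ≤ N.card := by
      have := Finset.card_le_card hFN
      rw [Finset.card_erase_of_mem hu] at this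
      have hpos : 0 < N.card := Finset.card_pos.2 ⟨u, hu⟩
      omega
    have h6 : ∑ v ∈ N.erase u, ((((Col H k).filter (fun c => c u = c v)).card : ℕ) : ℝ)
        ≤ ((N.card : ℝ) - 1 - F.card) * (P (del H u) k : ℝ) := by
      rw [← Finset.sum_sdiff hFN]
      have h7 : ∑ v ∈ F, ((((Col H k).filter (fun c => c u = c v)).card : ℕ) : ℝ) = 0 := by
        refine Finset.sum_eq_zero (fun v hv => ?_)
        simp only [hF, mem_filter] at hv
        rw [Nat.cast_eq_zero, Finset.card_eq_zero, Finset.filter_eq_empty_iff]
        intro c hc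
        exact (mem_Col H k c).1 hc _ _ hv.2
      rw [h7, add_zero]
      have h8 : ∀ v ∈ N.erase u \ F, ((((Col H k).filter (fun c => c u = c v)).card : ℕ) : ℝ) ≤ (P (del H u) k : ℝ) := by
        intro v hv
        have hvu : v ≠ u := by
          simp only [mem_sdiff, mem_erase] at hv
          exact hv.1.1
        exact_mod_cast pair_le H u v hvu k
      refine (Finset.sum_le_sum h8).trans (le_of_eq ?_)
      rw [Finset.sum_const, nsmul_eq_mul]
      congr 1
      rw [Finset.card_sdiff_of_subset hFN, Finset.card_erase_of_mem hu, Nat.cast_sub (by omega), Nat.cast_sub (by omega)]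
      push_cast; ring
    have h9 : ((N.card : ℝ) + 1 - F.card) * (P (del H u) k : ℝ) ≤ (P H k : ℝ) := by
      refine le_trans ?_ (P_ge H u k)
      refine mul_le_mul_of_nonneg_right ?_ (by positivity)
      have h10 : (nb H u).card + N.card ≤ Fintype.card W + F.card := by
        have h11 : (nb H u).card = (univ.filter (fun v => H.Adj u v)).card := by
          refine Finset.card_bij (fun v _ => v.1) ?_ ?_ ?_
          · intro v hv; simp only [mem_filter, mem_univ, true_and]; exact (mem_nb _ _ _).1 hv
          · intro a _ b _ h; exact Subtype.ext h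
          · intro v hv
            simp only [mem_filter, mem_univ, true_and] at hv
            exact ⟨⟨v, hv.ne.symm⟩, (mem_nb _ _ _).2 hv, rfl⟩
        rw [h11]
        have h12 : (univ.filter (fun v => H.Adj u v)).card + N.card =
            ((univ.filter (fun v => H.Adj u v)) ∪ N).card + ((univ.filter (fun v => H.Adj u v)) ∩ N).card :=
          (Finset.card_union_add_card_inter _ _).symm
        rw [h12]
        have h13 : ((univ.filter (fun v => H.Adj u v)) ∩ N) = F := by
          ext v; simp only [hF, mem_inter, mem_filter, mem_univ, true_and]; tauto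
        rw [h13]
        have := Finset.card_le_univ ((univ.filter (fun v => H.Adj u v)) ∪ N)
        omega
      have h10' : ((nb H u).card : ℝ) + N.card ≤ Fintype.card W + F.card := by exact_mod_cast h10
      have hk' : (Fintype.card W : ℝ) + 1 ≤ k := by exact_mod_cast hk
      linarith
    have hFr : (F.card : ℝ) + 1 ≤ N.card := by exact_mod_cast hFcard
    have hF0 : (0:ℝ) ≤ F.card := by positivity
    have hp0 : (0:ℝ) ≤ (P (del H u) k : ℝ) := by positivity
    calc ((N.card : ℝ) + 1) * ∑ v ∈ N.erase u, ((((Col H k).filter (fun c => c u = c v)).card : ℕ) : ℝ)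
        ≤ ((N.card : ℝ) + 1) * (((N.card : ℝ) - 1 - F.card) * (P (del H u) k : ℝ)) :=
          mul_le_mul_of_nonneg_left h6 (by positivity)
      _ ≤ ((N.card : ℝ) - 1) * (((N.card : ℝ) + 1 - F.card) * (P (del H u) k : ℝ)) := by
          have : 0 ≤ 2 * (F.card : ℝ) * (P (del H u) k : ℝ) := by positivity
          nlinarith
      _ ≤ ((N.card : ℝ) - 1) * (P H k : ℝ) :=
          mul_le_mul_of_nonneg_left h9 (by linarith)
  have h14 : ((N.card : ℝ) + 1) * ∑ u ∈ N, ∑ v ∈ N.erase u, ((((Col H k).filter (fun c => c u = c v)).card : ℕ) : ℝ)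
      ≤ (N.card : ℝ) * (((N.card : ℝ) - 1) * (P H k : ℝ)) := by
    rw [Finset.mul_sum]
    refine (Finset.sum_le_sum h5).trans (le_of_eq ?_)
    rw [Finset.sum_const, nsmul_eq_mul]
  have h15 := mul_le_mul_of_nonneg_left h1 (show (0:ℝ) ≤ (N.card : ℝ) + 1 by positivity)
  nlinarith [h14, h15]

/-- merge `u` into `w` and join `w` to all of `M` -/
def mrg {W : Type} (H : SimpleGraph W) (u w : W) (M : Finset W) : SimpleGraph {a : W // a ≠ u} where
  Adj a b := a ≠ b ∧ (H.Adj a.1 b.1 ∨ (a.1 = w ∧ (H.Adj u b.1 ∨ b.1 ∈ M)) ∨ (b.1 = w ∧ (H.Adj u a.1 ∨ a.1 ∈ M)))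
  symm := ⟨by
    intro a b h
    refine ⟨h.1.symm, ?_⟩
    rcases h.2 with h | h | h
    · exact Or.inl h.symm
    · exact Or.inr (Or.inr h)
    · exact Or.inr (Or.inl h)⟩
  loopless := ⟨fun a h => h.1 rfl⟩

lemma merge_count {W : Type} [Fintype W] (H : SimpleGraph W) (u w : W) (M : Finset W)
    (hwu : w ≠ u) (hadj : ¬ H.Adj u w) (huM : u ∉ M) (hwM : w ∉ M) (k : ℕ) :
    ((Col H k).filter (fun c => c u = c w ∧ ∀ m ∈ M, c m ≠ c u)).card = P (mrg H u w M) k := by
  unfold P
  refine Finset.card_bij' (fun c _ => fun a => c a.1)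
    (fun c' _ => fun a => if h : a = u then c' ⟨w, hwu⟩ else c' ⟨a, h⟩) ?_ ?_ ?_ ?_
  · intro c hc
    simp only [mem_filter, mem_Col] at hc
    obtain ⟨hc1, hc2, hc3⟩ := hc
    rw [mem_Col]
    rintro ⟨a, ha⟩ ⟨b, hb⟩ ⟨hne, h⟩
    simp only at h ⊢
    rcases h with h | ⟨h1, h2 | h2⟩ | ⟨h1, h2 | h2⟩
    · exact hc1 _ _ h
    · subst h1; rw [← hc2]; exact hc1 _ _ h2
    · subst h1; rw [← hc2]; exact (hc3 _ h2).symm
    · subst h1; rw [← hc2]; exact (hc1 _ _ h2).symm
    · subst h1; rw [← hc2]; exact (hc3 _ h2)
  · intro c' hc'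
    rw [mem_Col] at hc'
    simp only [mem_filter, mem_Col]
    refine ⟨?_, ?_, ?_⟩
    · intro a b hab
      by_cases ha : a = u
      · subst ha
        have hb : b ≠ a := hab.ne.symm
        simp only [dite_true, hb, dite_false]
        refine hc' _ _ ⟨?_, Or.inr (Or.inl ⟨rfl, Or.inl hab⟩)⟩
        intro h
        have := congrArg Subtype.val h
        simp only at this
        exact hadj (this ▸ hab)
      · by_cases hb : b = u
        · subst hb
          simp only [dite_true, ha, dite_false]
          refine hc' _ _ ⟨?_, Or.inr (Or.inr ⟨rfl, Or.inl hab.symm⟩)⟩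
          intro h
          have := congrArg Subtype.val h
          simp only at this
          exact hadj (this ▸ hab.symm)
        · simp only [ha, hb, dite_false]
          refine hc' _ _ ⟨?_, Or.inl hab⟩
          intro h
          have := congrArg Subtype.val h
          exact hab.ne this
    · simp [hwu]
    · intro m hm
      have hmu : m ≠ u := fun h => huM (h ▸ hm)
      simp only [hmu, dite_true, dite_false]
      refine hc' _ _ ⟨?_, Or.inr (Or.inr ⟨rfl, Or.inr hm⟩)⟩
      intro h
      have := congrArg Subtype.val h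
      simp only at this
      exact hwM (this ▸ hm)
  · intro c hc
    simp only [mem_filter, mem_Col] at hc
    ext a
    by_cases h : a = u
    · subst h; simp [hc.2.1]
    · simp [h]
  · intro c' hc'
    ext a
    simp [a.2]

lemma merge_clique {W : Type} [Fintype W] (H : SimpleGraph W) (u w : W) (M : Finset W)
    (hwu : w ≠ u) (hadj : ¬ H.Adj u w) (K : Finset W) (hK : H.IsClique (K : Set W)) :
    ∃ K' : Finset {a : W // a ≠ u}, (mrg H u w M).IsClique (K' : Set {a : W // a ≠ u}) ∧ K'.card = K.card := by
  let φ : W → {a : W // a ≠ u} := fun a => if h : a = u then ⟨w, hwu⟩ else ⟨a, h⟩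
  have hφ1 : φ u = ⟨w, hwu⟩ := by simp [φ]
  have hφ2 : ∀ a (h : a ≠ u), φ a = ⟨a, h⟩ := by intro a h; simp [φ, h]
  have key : ∀ a ∈ K, ∀ b ∈ K, a ≠ b → φ a ≠ φ b ∧ (mrg H u w M).Adj (φ a) (φ b) := by
    intro a ha b hb hab
    have hadj2 : H.Adj a b := hK ha hb hab
    by_cases h1 : a = u
    · subst h1
      have hb' : b ≠ a := fun h => hab h.symm
      rw [hφ1, hφ2 b hb']
      have hne : (⟨w, hwu⟩ : {c : W // c ≠ a}) ≠ ⟨b, hb'⟩ := by
        intro h
        have := congrArg Subtype.val h
        simp only at this
        exact hadj (this ▸ hadj2)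
      exact ⟨hne, hne, Or.inr (Or.inl ⟨rfl, Or.inl hadj2⟩)⟩
    · by_cases h2 : b = u
      · subst h2
        rw [hφ1, hφ2 a h1]
        have hne : (⟨a, h1⟩ : {c : W // c ≠ b}) ≠ ⟨w, hwu⟩ := by
          intro h
          have := congrArg Subtype.val h
          simp only at this
          exact hadj (this ▸ hadj2.symm)
        exact ⟨hne, hne, Or.inr (Or.inr ⟨rfl, Or.inl hadj2.symm⟩)⟩
      · rw [hφ2 a h1, hφ2 b h2]
        have hne : (⟨a, h1⟩ : {c : W // c ≠ u}) ≠ ⟨b, h2⟩ := by
          intro h
          exact hab (congrArg Subtype.val h)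
        exact ⟨hne, hne, Or.inl hadj2⟩
  refine ⟨K.image φ, ?_, ?_⟩
  · intro a ha b hb hab
    simp only [coe_image, Set.mem_image, mem_coe] at ha hb
    obtain ⟨a', ha', rfl⟩ := ha
    obtain ⟨b', hb', rfl⟩ := hb
    have : a' ≠ b' := fun h => hab (by rw [h])
    exact (key a' ha' b' hb' this).2
  · refine Finset.card_image_of_injOn ?_
    intro a ha b hb h
    by_contra hab
    exact (key a ha b hb hab).1 h

/-- hypothesis for graphs on one fewer vertex than `W` -/
lemma rep_ratio {W : Type} [Fintype W] (H : SimpleGraph W) (K : Finset W) (hK : H.IsClique (K : Set W))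
    (l l' : ℕ) (b : ℝ)
    (hb : ∀ (u : W) (_ : Fintype {a : W // a ≠ u}) (H' : SimpleGraph {a : W // a ≠ u})
      (K' : Finset {a : W // a ≠ u}),
      H'.IsClique (K' : Set {a : W // a ≠ u}) → K'.card = K.card →
      K.card + 1 ≤ Fintype.card W → (P H' l' : ℝ) ≤ b * (P H' l : ℝ)) (N : Finset W) :
    ∑ c ∈ Col H l', rep c N ≤ b * ∑ c ∈ Col H l, rep c N := by
  have hS : ∀ u w, w ≠ u → ∀ M : Finset W, u ∉ M → w ∉ M →
      ((((Col H l').filter (fun c => c u = c w ∧ ∀ m ∈ M, c m ≠ c u)).card : ℕ) : ℝ) ≤
      b * ((((Col H l).filter (fun c => c u = c w ∧ ∀ m ∈ M, c m ≠ c u)).card : ℕ) : ℝ) := by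
    intro u w hwu M huM hwM
    by_cases hadj : H.Adj u w
    · have h0 : ∀ k, ((Col H k).filter (fun c => c u = c w ∧ ∀ m ∈ M, c m ≠ c u)).card = 0 := by
        intro k
        rw [Finset.card_eq_zero, Finset.filter_eq_empty_iff]
        intro c hc h
        exact (mem_Col H k c).1 hc _ _ hadj h.1
      rw [h0, h0]; simp
    · rw [merge_count H u w M hwu hadj huM hwM, merge_count H u w M hwu hadj huM hwM]
      obtain ⟨K', hK', hcard⟩ := merge_clique H u w M hwu hadj K hK
      refine hb u _ _ K' hK' hcard ?_
      have h1 : K'.card ≤ Fintype.card {a : W // a ≠ u} := Finset.card_le_univ _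
      have h2 : Fintype.card {a : W // a ≠ u} = Fintype.card W - 1 := by
        simp [Fintype.card_subtype_compl]
      have h3 : 0 < Fintype.card W := Fintype.card_pos_iff.2 ⟨u⟩
      omega
  have hT : ∀ u, ∀ M : Finset W, u ∉ M →
      ((((Col H l').filter (fun c => c u ∈ M.image c)).card : ℕ) : ℝ) ≤
      b * ((((Col H l).filter (fun c => c u ∈ M.image c)).card : ℕ) : ℝ) := by
    intro u M
    induction M using Finset.induction_on with
    | empty => intro _; simp
    | insert w M hw ih =>
      intro hu
      have huw : w ≠ u := by rintro rfl; exact hu (Finset.mem_insert_self _ _)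
      have huM : u ∉ M := fun h => hu (Finset.mem_insert_of_mem h)
      have hsplit : ∀ k, ((Col H k).filter (fun c => c u ∈ (insert w M).image c)).card
          = ((Col H k).filter (fun c => c u ∈ M.image c)).card
            + ((Col H k).filter (fun c => c u = c w ∧ ∀ m ∈ M, c m ≠ c u)).card := by
        intro k
        rw [← Finset.card_union_of_disjoint]
        · congr 1
          ext c
          simp only [mem_filter, mem_union, mem_image, mem_insert]
          constructor
          · rintro ⟨hc, a, ha | ha, hca⟩
            · subst ha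
              by_cases hh : ∃ m ∈ M, c m = c u
              · left; exact ⟨hc, hh⟩
              · right; push Not at hh; exact ⟨hc, hca.symm, hh⟩
            · left; exact ⟨hc, a, ha, hca⟩
          · rintro (⟨hc, a, ha, hca⟩ | ⟨hc, h1, _⟩)
            · exact ⟨hc, a, Or.inr ha, hca⟩
            · exact ⟨hc, w, Or.inl rfl, h1.symm⟩
        · rw [Finset.disjoint_left]
          intro c h1 h2
          simp only [mem_filter, mem_image] at h1 h2
          obtain ⟨_, a, ha, hca⟩ := h1
          exact h2.2.2 a ha hca
      rw [hsplit, hsplit]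
      push_cast
      have h1 := ih huM
      have h2 := hS u w huw M huM hw
      linarith
  induction N using Finset.induction_on with
  | empty => simp [rep]
  | insert u M hu ih =>
    have h1 : ∀ k, ∑ c ∈ Col H k, rep c (insert u M) = ∑ c ∈ Col H k, rep c M
        + ((((Col H k).filter (fun c => c u ∈ M.image c)).card : ℕ) : ℝ) := by
      intro k
      rw [Finset.sum_congr rfl (fun c _ => rep_insert c M u hu), Finset.sum_add_distrib]
      congr 1
      rw [Finset.sum_ite]
      simp
    rw [h1, h1]
    have h2 := hT u M hu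
    linarith

lemma P_split' {V : Type} [Fintype V] (G : SimpleGraph V) (x : V) (k : ℕ) :
    (P G k : ℝ) = ((k : ℝ) - ((nb G x).card : ℝ)) * (P (del G x) k : ℝ)
      + ∑ c ∈ Col (del G x) k, rep c (nb G x) := by
  rw [P_split G x k]
  unfold P
  rw [mul_comm, ← nsmul_eq_mul, ← Finset.sum_const, ← Finset.sum_add_distrib]
  refine Finset.sum_congr rfl (fun c _ => ?_)
  unfold rep; ring

set_option maxHeartbeats 1000000 in
/-- **Main theorem**: for a graph `G` on `n` vertices, a clique `K` and `lam ≥ n`,
`P(G, lam - 1) ≤ (1 - |K|/lam) (1 - 1/lam)^(n-|K|) P(G, lam)`. -/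
theorem main (n : ℕ) : ∀ (V : Type) [Fintype V] (G : SimpleGraph V) (K : Finset V),
    Fintype.card V = n → G.IsClique (K : Set V) → ∀ lam : ℕ, n ≤ lam →
    (P G (lam - 1) : ℝ) ≤ (1 - (K.card : ℝ) / lam) * (1 - 1 / (lam : ℝ)) ^ (n - K.card) * (P G lam : ℝ) := by
  induction n using Nat.strong_induction_on with
  | _ n ih =>
    intro V _ G K hcard hK lam hlam
    have hKn : K.card ≤ n := hcard ▸ Finset.card_le_univ K
    rcases Nat.eq_zero_or_pos n with hn0 | hnpos
    · -- empty graph
      subst hn0
      have hK0 : K.card = 0 := by omega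
      have : IsEmpty V := Fintype.card_eq_zero_iff.1 hcard
      have h1 : ∀ k, P G k = 1 := by
        intro k
        unfold P
        have : Col G k = univ := by
          ext c; simp only [mem_Col, mem_univ, iff_true]; intro u; exact isEmptyElim u
        rw [this]
        simp
      rw [h1, h1, hK0]; simp
    · have hlam1 : 1 ≤ lam := by omega
      have hL : (1:ℝ) ≤ lam := by exact_mod_cast hlam1
      have hL0 : (0:ℝ) < lam := by linarith
      have hlamsub : ((lam - 1 : ℕ) : ℝ) = (lam : ℝ) - 1 := by
        rw [Nat.cast_sub hlam1]; simp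
      have hdelcard : ∀ x : V, Fintype.card {v : V // v ≠ x} = n - 1 := by
        intro x
        simp [Fintype.card_subtype_compl, hcard]
      by_cases hKuniv : K = univ
      · -- complete graph
        subst hKuniv
        obtain ⟨x⟩ : Nonempty V := Fintype.card_pos_iff.1 (by omega)
        have hc1 : (univ : Finset V).card = n := by rw [Finset.card_univ, hcard]
        have hdc : (del G x).IsClique ((univ : Finset {v : V // v ≠ x}) : Set {v : V // v ≠ x}) := by
          intro a _ b _ hab
          exact hK (by simp) (by simp) (fun h => hab (Subtype.ext h))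
        have h1 := ih (n-1) (by omega) {v : V // v ≠ x} (del G x) univ (hdelcard x) hdc lam (by omega)
        rw [Finset.card_univ, hdelcard x] at h1
        have hnb : nb G x = univ := by
          ext v
          simp only [mem_nb, mem_univ, iff_true]
          exact hK (by simp) (by simp) v.2.symm
        have hrep : ∀ k, ∀ c ∈ Col (del G x) k, rep c (nb G x) = 0 := by
          intro k c hc
          unfold rep
          rw [hnb, Finset.card_image_of_injective _ ?_]
          · ring
          · intro a b h
            by_contra hab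
            exact (mem_Col _ _ _).1 hc a b (hdc (by simp) (by simp) hab) h
        rw [P_split' G x, P_split' G x, Finset.sum_eq_zero (hrep _), Finset.sum_eq_zero (hrep _)]
        rw [hnb, Finset.card_univ, hdelcard x, hc1, hlamsub]
        have hn1 : ((n - 1 : ℕ) : ℝ) = (n : ℝ) - 1 := by
          rw [Nat.cast_sub hnpos]; simp
        rw [hn1] at h1 ⊢
        simp only [Nat.sub_self, pow_zero, mul_one, add_zero] at h1 ⊢
        have hnl : (n:ℝ) ≤ lam := by exact_mod_cast hlam
        calc ((lam:ℝ) - 1 - (n - 1)) * (P (del G x) (lam - 1) : ℝ)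
            ≤ ((lam:ℝ) - 1 - (n - 1)) * ((1 - ((n:ℝ) - 1) / lam) * (P (del G x) lam : ℝ)) :=
              mul_le_mul_of_nonneg_left h1 (by linarith)
          _ = (1 - (n:ℝ) / lam) * (((lam:ℝ) - (n - 1)) * (P (del G x) lam : ℝ)) := by
              field_simp
              ring
      · obtain ⟨x, hx⟩ : ∃ x, x ∉ K := by
          by_contra h
          push Not at h
          exact hKuniv (Finset.eq_univ_iff_forall.2 h)
        have hKlt : K.card < n := by
          have := Finset.card_lt_univ_of_notMem hx
          omega
        -- the clique in the deleted graph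
        let K' : Finset {v : V // v ≠ x} := univ.filter (fun v => v.1 ∈ K)
        have hK'card : K'.card = K.card := by
          refine Finset.card_bij (fun v _ => v.1) ?_ ?_ ?_
          · intro v hv; simpa [K'] using hv
          · intro a _ b _ h; exact Subtype.ext h
          · intro v hv
            exact ⟨⟨v, fun h => hx (h ▸ hv)⟩, by simp [K', hv], rfl⟩
        have hK' : (del G x).IsClique (K' : Set {v : V // v ≠ x}) := by
          intro a ha b hb hab
          simp only [K', coe_filter, mem_univ, true_and, Set.mem_ofPred_eq] at ha hb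
          exact hK ha hb (fun h => hab (Subtype.ext h))
        have hH := ih (n-1) (by omega) {v : V // v ≠ x} (del G x) K' (hdelcard x) hK' lam (by omega)
        rw [hK'card] at hH
        set q : ℝ := 1 - 1 / (lam:ℝ) with hq
        set s : ℝ := 1 - (K.card : ℝ) / lam with hs
        have hKl : (K.card : ℝ) ≤ lam := by
          have : K.card ≤ lam := by omega
          exact_mod_cast this
        have hs0 : 0 ≤ s := by
          rw [hs, sub_nonneg, div_le_one hL0]; exact hKl
        have hq0 : 0 ≤ q := by
          rw [hq, sub_nonneg, div_le_one hL0]; exact hL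
        have hR := rep_ratio (del G x) K' hK' lam (lam - 1) (s * q ^ (n - 2 - K.card)) (by
          intro u _ H' K'' hK'' hcard'' hle
          rw [hK'card] at hcard''
          rw [hK'card, hdelcard x] at hle
          have hc2 : Fintype.card {a : {v : V // v ≠ x} // a ≠ u} = n - 2 := by
            rw [Fintype.card_subtype_compl]
            rw [hdelcard x]; simp; omega
          have := ih (n-2) (by omega) {a : {v : V // v ≠ x} // a ≠ u} H' K'' hc2 hK'' lam (by omega)
          rw [hcard''] at this
          exact this) (nb G x)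
        set d : ℝ := ((nb G x).card : ℝ) with hd
        have hdle : (nb G x).card ≤ n - 1 := by
          have := Finset.card_le_univ (nb G x)
          rw [hdelcard x] at this
          exact this
        have hdle' : d + 1 ≤ lam := by
          have h1 : (nb G x).card + 1 ≤ lam := by omega
          have h2 : (((nb G x).card + 1 : ℕ) : ℝ) ≤ (lam : ℝ) := Nat.cast_le.2 h1
          rw [Nat.cast_add, Nat.cast_one] at h2
          exact h2
        have hd0 : 0 ≤ d := by positivity
        set p' : ℝ := (P (del G x) (lam - 1) : ℝ) with hp'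
        set p : ℝ := (P (del G x) lam : ℝ) with hp
        set r' : ℝ := ∑ c ∈ Col (del G x) (lam - 1), rep c (nb G x) with hr'
        set r : ℝ := ∑ c ∈ Col (del G x) lam, rep c (nb G x) with hr
        have hp0 : 0 ≤ p := by positivity
        have hr0 : 0 ≤ r := by
          refine Finset.sum_nonneg (fun c _ => ?_)
          unfold rep
          have : ((nb G x).image c).card ≤ (nb G x).card := Finset.card_image_le
          have h2 : ((((nb G x).image c).card : ℕ) : ℝ) ≤ ((nb G x).card : ℝ) := by exact_mod_cast this
          linarith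
        have hsum := sum_rep_le (del G x) (nb G x) lam (by rw [hdelcard x]; omega)
        rw [← hr, ← hp, ← hd] at hsum
        rw [P_split' G x (lam - 1), P_split' G x lam, ← hp', ← hp, ← hr', ← hr, ← hd, hlamsub]
        rcases Nat.lt_or_ge (K.card + 1) n with hlt | hge
        · -- general case
          have he1 : n - 1 - K.card = (n - 2 - K.card) + 1 := by omega
          have he2 : n - K.card = (n - 2 - K.card) + 2 := by omega
          rw [he1] at hH
          rw [he2]
          set b : ℝ := s * q ^ (n - 2 - K.card) with hb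
          have hb0 : 0 ≤ b := mul_nonneg hs0 (pow_nonneg hq0 _)
          have hH' : p' ≤ b * q * p := by
            calc p' ≤ _ := hH
              _ = b * q * p := by rw [hb]; ring
          have hgoal : s * q ^ (n - 2 - K.card + 2) * (((lam:ℝ) - d) * p + r) = b * (q ^ 2 * (((lam:ℝ) - d) * p + r)) := by
            rw [hb]; ring
          rw [hgoal]
          have h1 : ((lam:ℝ) - 1 - d) * p' ≤ ((lam:ℝ) - 1 - d) * (b * q * p) :=
            mul_le_mul_of_nonneg_left hH' (by linarith)
          have h2 : (1 - q ^ 2) * r ≤ q * (d / lam) * p := by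
            -- 2 (d+1) r ≤ d (d-1) p
            have hq' : q = ((lam:ℝ) - 1) / lam := by rw [hq]; field_simp
            have h3 : (2 * (lam:ℝ) - 1) * r ≤ ((lam:ℝ) - 1) * d * p := by
              have h4 : 2 * (d + 1) * ((2 * (lam:ℝ) - 1) * r) ≤ (2 * (lam:ℝ) - 1) * (d * (d - 1) * p) := by
                have := mul_le_mul_of_nonneg_left hsum (show (0:ℝ) ≤ 2 * (lam:ℝ) - 1 by linarith)
                linarith
              have h5 : (2 * (lam:ℝ) - 1) * (d * (d - 1) * p) ≤ 2 * (d + 1) * (((lam:ℝ) - 1) * d * p) := by
                have hdp : 0 ≤ d * p := mul_nonneg hd0 hp0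
                have h6 : (2 * (lam:ℝ) - 1) * (d - 1) ≤ 2 * (d + 1) * ((lam:ℝ) - 1) := by nlinarith
                nlinarith
              have h7 : 0 < 2 * (d + 1) := by linarith
              exact le_of_mul_le_mul_left (h4.trans h5) h7
            rw [hq']
            have hL2 : (0:ℝ) < (lam:ℝ) ^ 2 := by positivity
            have h8 : (1 - (((lam:ℝ) - 1) / lam) ^ 2) * r = ((2 * (lam:ℝ) - 1) * r) / (lam:ℝ) ^ 2 := by
              field_simp; ring
            have h9 : ((lam:ℝ) - 1) / lam * (d / lam) * p = (((lam:ℝ) - 1) * d * p) / (lam:ℝ) ^ 2 := by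
              field_simp
            rw [h8, h9]
            exact div_le_div_of_nonneg_right h3 hL2.le
          have h10 : q * (lam - d) = (lam:ℝ) - d - 1 + d / lam := by
            rw [hq]; field_simp; ring
          have h11 : ((lam:ℝ) - 1 - d) * (b * q * p) + b * r ≤ b * (q ^ 2 * (((lam:ℝ) - d) * p + r)) := by
            have h12 : q ^ 2 * (((lam:ℝ) - d) * p + r) = q * ((lam:ℝ) - d - 1 + d / lam) * p + q ^ 2 * r := by
              rw [← h10]; ring
            rw [h12]
            have h13 : ((lam:ℝ) - 1 - d) * (b * q * p) + b * r = b * (((lam:ℝ) - 1 - d) * q * p + r) := by ring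
            rw [h13]
            refine mul_le_mul_of_nonneg_left ?_ hb0
            nlinarith
          linarith
        · -- `K` covers everything but `x`
          have hKn1 : K.card = n - 1 := by omega
          have hK'u : K' = univ := by
            rw [← Finset.card_eq_iff_eq_univ, hK'card, hdelcard x, hKn1]
          have hrep : ∀ k, ∀ c ∈ Col (del G x) k, rep c (nb G x) = 0 := by
            intro k c hc
            unfold rep
            rw [Finset.card_image_of_injective _ ?_]
            · ring
            · intro a b h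
              by_contra hab
              refine (mem_Col _ _ _).1 hc a b (hK' ?_ ?_ hab) h <;> simp [hK'u]
          have hr'0 : r' = 0 := Finset.sum_eq_zero (hrep _)
          have hr0' : r = 0 := Finset.sum_eq_zero (hrep _)
          rw [hr'0, hr0', add_zero, add_zero]
          have he1 : n - 1 - K.card = 0 := by omega
          have he2 : n - K.card = 1 := by omega
          rw [he1, pow_zero, mul_one] at hH
          rw [he2, pow_one]
          have h1 : ((lam:ℝ) - 1 - d) * p' ≤ ((lam:ℝ) - 1 - d) * (s * p) :=
            mul_le_mul_of_nonneg_left hH (by linarith)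
          have h10 : q * (lam - d) = (lam:ℝ) - d - 1 + d / lam := by
            rw [hq]; field_simp; ring
          have h11 : s * q * (((lam:ℝ) - d) * p) = s * p * ((lam:ℝ) - d - 1 + d / lam) := by
            rw [← h10]; ring
          rw [h11]
          have h12 : 0 ≤ s * p * (d / lam) := by positivity
          nlinarith

end

end Pool.Agent.U350.ChromRatio
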